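import Pool.Agent.H34.GU.Targets1
import Pool.Agent.H86.GZ.PSZ

/-!
# Row PSU of the board gu: the additive character of the vectors modulo `N`
-/

set_option autoImplicit false

namespace Pool.Agent.H69.GU

open Pool.Agent.H34.GM Pool.Agent.H34.GZ Pool.Agent.H34.GU Pool.Agent.H86.GZ

theorem psu_zero (N : ℕ) [NeZero N] : psn N 0 = 1 := by
  unfold psn
  rw [ZMod.val_zero]
  simp [psi_ee_zero]

theorem psu_add (N : ℕ) [NeZero N] (a b : ZMod N) : psn N (a + b) = psn N a * psn N b :=
  psz_add N a b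

theorem psu_norm (N : ℕ) [NeZero N] (a : ZMod N) : ‖psn N a‖ = 1 := psi_ee_norm _

theorem psu_neg (N : ℕ) [NeZero N] (a : ZMod N) : psn N (-a) = (starRingEnd ℂ) (psn N a) := by
  have h1 := psu_add N (-a) a
  rw [neg_add_cancel, psu_zero] at h1
  rw [← Complex.inv_eq_conj (psu_norm N a)]
  exact eq_inv_of_mul_eq_one_left h1.symm

theorem dt_add_left {m N : ℕ} (v v' y : VN m N) : dt (v + v') y = dt v y + dt v' y := by
  unfold dt
  rw [← Finset.sum_add_distrib]
  exact Finset.sum_congr rfl fun i _ => by rw [Pi.add_apply, add_mul]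

theorem dt_sub_right {m N : ℕ} (v y y' : VN m N) : dt v (y - y') = dt v y + -dt v y' := by
  unfold dt
  rw [← Finset.sum_neg_distrib, ← Finset.sum_add_distrib]
  exact Finset.sum_congr rfl fun i _ => by rw [Pi.sub_apply, mul_sub, sub_eq_add_neg]

/-- orthogonality -/
theorem psu_orth {m N : ℕ} [NeZero N] (z : VN m N) :
    ∑ v : VN m N, psn N (dt v z) = if z = 0 then ((N : ℂ)) ^ m else 0 := by
  split_ifs with hz
  · have h1 : ∀ v : VN m N, psn N (dt v z) = 1 := by
      intro v
      have h2 : dt v z = 0 := by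
        rw [hz]
        simp [dt]
      rw [h2, psu_zero]
    rw [Finset.sum_congr rfl fun v _ => h1 v]
    simp [ZMod.card]
  · obtain ⟨i, hi⟩ : ∃ i, z i ≠ 0 := by
      by_contra hc
      push Not at hc
      exact hz (funext hc)
    have h0 : dt (Pi.single i (1 : ZMod N)) z = z i := by
      unfold dt
      rw [Finset.sum_eq_single i]
      · rw [Pi.single_eq_same, one_mul]
      · intro j _ hj
        rw [Pi.single_eq_of_ne hj, zero_mul]
      · intro h
        exact absurd (Finset.mem_univ i) h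
    have h2 : ∑ v : VN m N, psn N (dt v z) = psn N (z i) * ∑ v : VN m N, psn N (dt v z) := by
      rw [Finset.mul_sum]
      refine (Fintype.sum_equiv (Equiv.addLeft (Pi.single i (1 : ZMod N))) _ _ ?_).symm
      intro v
      rw [← h0, ← psu_add, ← dt_add_left]
      rfl
    have h3 : (psn N (z i) - 1) * ∑ v : VN m N, psn N (dt v z) = 0 := by
      rw [sub_mul, one_mul, ← h2, sub_self]
    rcases mul_eq_zero.1 h3 with h4 | h4
    · exact absurd (psz_one N _ (sub_eq_zero.1 h4)) hi
    · exact h4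

theorem pf_PSU : T_PSU := by
  intro m N _ _ _
  refine ⟨psu_zero N, psu_add N, psu_norm N, psu_neg N, ?_⟩
  intro f
  have h1 : ∀ v : VN m N, ((‖∑ y, psn N (dt v y) * f y‖ ^ 2 : ℝ) : ℂ) =
      ∑ y, ∑ y', f y * (starRingEnd ℂ) (f y') * psn N (dt v (y - y')) := by
    intro v
    rw [Complex.ofReal_pow, ← Complex.mul_conj', map_sum, Finset.sum_mul_sum]
    refine Finset.sum_congr rfl fun y _ => Finset.sum_congr rfl fun y' _ => ?_
    rw [map_mul, dt_sub_right, psu_add, psu_neg]
    ring
  have h2 : ((∑ v : VN m N, ‖∑ y, psn N (dt v y) * f y‖ ^ 2 : ℝ) : ℂ) =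
      (((N : ℝ) ^ m * ∑ y, ‖f y‖ ^ 2 : ℝ) : ℂ) := by
    rw [Complex.ofReal_sum, Finset.sum_congr rfl fun v _ => h1 v, Finset.sum_comm]
    have h3 : ∀ y : VN m N, ∑ v : VN m N, ∑ y', f y * (starRingEnd ℂ) (f y') *
        psn N (dt v (y - y')) = (N : ℂ) ^ m * ((‖f y‖ ^ 2 : ℝ) : ℂ) := by
      intro y
      rw [Finset.sum_comm]
      have h4 : ∀ y' : VN m N, ∑ v : VN m N, f y * (starRingEnd ℂ) (f y') *
          psn N (dt v (y - y')) = if y' = y then (N : ℂ) ^ m * (f y * (starRingEnd ℂ) (f y))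
            else 0 := by
        intro y'
        rw [← Finset.mul_sum, psu_orth]
        by_cases hy : y' = y
        · rw [if_pos hy, hy, if_pos (sub_self y)]
          ring
        · rw [if_neg hy, if_neg (fun h => hy (sub_eq_zero.1 h).symm), mul_zero]
      rw [Finset.sum_congr rfl fun y' _ => h4 y', Finset.sum_ite_eq' Finset.univ y,
        if_pos (Finset.mem_univ y), Complex.mul_conj', Complex.ofReal_pow]
    rw [Finset.sum_congr rfl fun y _ => h3 y, ← Finset.mul_sum]
    push_cast
    rfl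
  exact_mod_cast h2

end Pool.Agent.H69.GU
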